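import Pool.Agent.Helper4.HallDefs

set_option autoImplicit false

namespace Pool.Agent.Helper4

/-- `|Y^g - X^g| ≥ |Y - X| * Y^(g-1)` for positive reals -/
theorem pow_sub_lower (g : ℕ) (hg : 1 ≤ g) (X Y : ℝ) (hX : 0 < X) (hY : 0 < Y) :
    |Y - X| * Y ^ (g - 1) ≤ |Y ^ g - X ^ g| := by
  obtain ⟨k, rfl⟩ : ∃ k, g = k + 1 := ⟨g - 1, by omega⟩
  simp only [Nat.add_sub_cancel]
  have h := (Commute.all Y X).mul_geom_sum₂ (k + 1)
  have hsum : Y ^ k ≤ ∑ i ∈ Finset.range (k + 1), Y ^ i * X ^ (k + 1 - 1 - i) := by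
    rw [Finset.sum_range_succ]
    have h1 : 0 ≤ ∑ i ∈ Finset.range k, Y ^ i * X ^ (k + 1 - 1 - i) :=
      Finset.sum_nonneg fun i _ => by positivity
    have h2 : Y ^ k * X ^ (k + 1 - 1 - k) = Y ^ k := by simp
    rw [h2]; linarith
  rw [← h, abs_mul]
  refine mul_le_mul_of_nonneg_left ?_ (abs_nonneg _)
  exact hsum.trans (le_abs_self _)

theorem d_lower (g a b : ℕ) (hg : 1 ≤ g) (x y d : ℤ) (hx : 0 < x) (hy : 0 < y)
    (h : y ^ (g * a) = x ^ (g * b) + d) :
    |((y ^ a - x ^ b : ℤ) : ℝ)| * (y : ℝ) ^ (a * (g - 1)) ≤ |(d : ℝ)| := by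
  have hx' : (0 : ℝ) < x := by exact_mod_cast hx
  have hy' : (0 : ℝ) < y := by exact_mod_cast hy
  have := pow_sub_lower g hg ((x : ℝ) ^ b) ((y : ℝ) ^ a) (by positivity) (by positivity)
  have e : (d : ℝ) = ((y : ℝ) ^ a) ^ g - ((x : ℝ) ^ b) ^ g := by
    have : (d : ℤ) = y ^ (g * a) - x ^ (g * b) := by rw [h]; ring
    rw [this]; push_cast
    rw [← pow_mul, ← pow_mul, mul_comm a g, mul_comm b g]
  rw [e]
  push_cast
  rw [pow_mul]
  exact this

theorem d_ne (g a b : ℕ) (x y d : ℤ) (hd : d ≠ 0)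
    (h : y ^ (g * a) = x ^ (g * b) + d) : (y ^ a - x ^ b : ℤ) ≠ 0 := by
  intro h0
  apply hd
  have : y ^ a = x ^ b := by linarith
  have e1 : y ^ (g * a) = (y ^ a) ^ g := by rw [← pow_mul, mul_comm]
  have e2 : x ^ (g * b) = (x ^ b) ^ g := by rw [← pow_mul, mul_comm]
  rw [e1, e2, this] at h
  linarith

theorem one_le_abs_int (z : ℤ) (hz : z ≠ 0) : (1 : ℝ) ≤ |(z : ℝ)| := by
  have : (1 : ℤ) ≤ |z| := Int.one_le_abs hz
  exact_mod_cast this

/-- positivity of `mn - m - n` -/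
theorem denom_pos (m n : ℕ) (hm : 0 < m) (hn : 0 < n) (h : (1 : ℝ) / m + 1 / n < 1) :
    (0 : ℝ) < (m : ℝ) * n - m - n := by
  have hm' : (0 : ℝ) < m := by exact_mod_cast hm
  have hn' : (0 : ℝ) < n := by exact_mod_cast hn
  rw [div_add_div _ _ hm'.ne' hn'.ne', div_lt_one (by positivity)] at h
  linarith

/-- the case where one of the exponents divides the other -/
theorem hall_of_le (g a b : ℕ) (hg : 1 ≤ g) (ha : 1 ≤ a) (hb : 1 ≤ b)
    (hab : a * b ≤ a + b) (h : (1 : ℝ) / (g * a : ℕ) + 1 / (g * b : ℕ) < 1) :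
    HallProp (g * a) (g * b) := by
  intro ε hε hε'
  have hP := denom_pos (g * a) (g * b) (Nat.mul_pos hg ha) (Nat.mul_pos hg hb) h
  have hg' : (1 : ℝ) ≤ g := by exact_mod_cast hg
  have ha' : (1 : ℝ) ≤ a := by exact_mod_cast ha
  have hb' : (1 : ℝ) ≤ b := by exact_mod_cast hb
  have hab' : (a : ℝ) * b ≤ a + b := by exact_mod_cast hab
  push_cast at hP
  have hg2 : 2 ≤ g := by
    by_contra hc
    have : g = 1 := by omega
    subst this
    push_cast at hP
    nlinarith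
  have hg2' : (2 : ℝ) ≤ g := by exact_mod_cast hg2
  refine ⟨2, by norm_num, ?_⟩
  intro x y d hx hy hd heq
  have hlow := d_lower g a b hg x y d hx hy heq
  have hne := one_le_abs_int _ (d_ne g a b x y d hd heq)
  have hd1 := one_le_abs_int d hd
  have hy' : (1 : ℝ) ≤ y := by exact_mod_cast hy
  set N : ℕ := a * (g - 1) with hN
  have hNpos : 0 < N := Nat.mul_pos (by omega) (by omega)
  have hN' : (0 : ℝ) < N := by exact_mod_cast hNpos
  have h1 : (y : ℝ) ^ N ≤ |(d : ℝ)| := by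
    refine le_trans ?_ hlow
    exact le_mul_of_one_le_left (by positivity) hne
  have h2 : (y : ℝ) ≤ |(d : ℝ)| ^ ((1 : ℝ) / N) := by
    have e : (y : ℝ) = ((y : ℝ) ^ N) ^ ((1 : ℝ) / N) := by
      rw [← Real.rpow_natCast, ← Real.rpow_mul (by linarith)]
      rw [mul_one_div_cancel hN'.ne', Real.rpow_one]
    rw [e]
    exact Real.rpow_le_rpow (by positivity) h1 (by positivity)
  have hNcast : (N : ℝ) = a * (g - 1) := by
    rw [hN]; push_cast [Nat.cast_sub hg]; ring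
  have h3 : (1 : ℝ) / N ≤ ((g * b : ℕ) : ℝ) / (((g * a : ℕ) : ℝ) * ((g * b : ℕ) : ℝ)
      - ((g * a : ℕ) : ℝ) - ((g * b : ℕ) : ℝ)) + ε := by
    have : (1 : ℝ) / N ≤ ((g * b : ℕ) : ℝ) / (((g * a : ℕ) : ℝ) * ((g * b : ℕ) : ℝ)
      - ((g * a : ℕ) : ℝ) - ((g * b : ℕ) : ℝ)) := by
      push_cast
      rw [div_le_div_iff₀ hN' hP, hNcast]
      have : (g : ℝ) * (a * b) ≤ g * (a + b) := mul_le_mul_of_nonneg_left hab' (by linarith)
      nlinarith
    linarith
  calc (y : ℝ) ≤ |(d : ℝ)| ^ ((1 : ℝ) / N) := h2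
    _ ≤ |(d : ℝ)| ^ (((g * b : ℕ) : ℝ) / (((g * a : ℕ) : ℝ) * ((g * b : ℕ) : ℝ)
      - ((g * a : ℕ) : ℝ) - ((g * b : ℕ) : ℝ)) + ε) := Real.rpow_le_rpow_of_exponent_le hd1 h3
    _ < 2 * |(d : ℝ)| ^ (((g * b : ℕ) : ℝ) / (((g * a : ℕ) : ℝ) * ((g * b : ℕ) : ℝ)
      - ((g * a : ℕ) : ℝ) - ((g * b : ℕ) : ℝ)) + ε) := by
        have : (0 : ℝ) < |(d : ℝ)| ^ (((g * b : ℕ) : ℝ) / (((g * a : ℕ) : ℝ) * ((g * b : ℕ) : ℝ)
      - ((g * a : ℕ) : ℝ) - ((g * b : ℕ) : ℝ)) + ε) := Real.rpow_pos_of_pos (by linarith) _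
        linarith

/-- `(H_{a,b})` implies `(H_{ga,gb})` -/
theorem hall_mul (g a b : ℕ) (hg : 1 ≤ g) (ha : 1 ≤ a) (hb : 1 ≤ b)
    (h : (1 : ℝ) / a + 1 / b < 1) (H : HallProp a b) : HallProp (g * a) (g * b) := by
  intro ε hε hε'
  have hP := denom_pos a b ha hb h
  have hg' : (1 : ℝ) ≤ g := by exact_mod_cast hg
  have ha' : (1 : ℝ) ≤ a := by exact_mod_cast ha
  have hb' : (1 : ℝ) ≤ b := by exact_mod_cast hb
  set t0 : ℝ := (b : ℝ) / ((a : ℝ) * b - a - b) with ht0
  have ht0pos : 0 < t0 := div_pos (by linarith) hP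
  have hP2 : (0 : ℝ) < g * a * b - a - b := by
    have : (a : ℝ) * b ≤ g * a * b := by
      have : (0 : ℝ) ≤ (a : ℝ) * b := by positivity
      nlinarith
    linarith
  set t : ℝ := ((g * b : ℕ) : ℝ) / (((g * a : ℕ) : ℝ) * ((g * b : ℕ) : ℝ)
      - ((g * a : ℕ) : ℝ) - ((g * b : ℕ) : ℝ)) with ht
  have hteq : t = b / (g * a * b - a - b) := by
    rw [ht]; push_cast
    have : (g : ℝ) * a * (g * b) - g * a - g * b = g * (g * a * b - a - b) := by ring
    rw [this, mul_div_mul_left _ _ (by linarith)]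
  have htpos : 0 < t := by rw [hteq]; exact div_pos (by linarith) hP2
  have hinv : 1 / t = 1 / t0 + a * (g - 1) := by
    rw [hteq, ht0]
    have hb0 : (b : ℝ) ≠ 0 := by linarith
    rw [one_div_div, one_div_div]
    field_simp
    ring
  have htt0 : t ≤ t0 := by
    have h1 : 1 / t0 ≤ 1 / t := by
      rw [hinv]
      have : (0 : ℝ) ≤ a * (g - 1) := mul_nonneg (by linarith) (by linarith)
      linarith
    exact (one_div_le_one_div ht0pos htpos).1 h1
  set δ : ℝ := ε * t0 / (t0 + 1) with hδ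
  have hδpos : 0 < δ := by positivity
  have hδlt : δ < ε := by
    rw [hδ, div_lt_iff₀ (by linarith)]
    nlinarith
  obtain ⟨K0, hK0, HK⟩ := H δ hδpos (by linarith)
  set τ0 : ℝ := t0 + δ with hτ0
  set τ : ℝ := t + ε with hτ
  have hτ0pos : 0 < τ0 := by linarith
  have hτpos : 0 < τ := by linarith
  -- the key exponent inequality
  have hkey : 1 ≤ τ / τ0 + (a * (g - 1) : ℝ) * τ := by
    have h1 : 1 / τ ≤ 1 / τ0 + a * (g - 1) := by
      have e1 : 1 / τ0 ≥ 1 / t0 - δ / t0 ^ 2 := by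
        rw [ge_iff_le, hτ0, div_sub_div _ _ ht0pos.ne' (by positivity), div_le_div_iff₀ (by positivity) (by positivity)]
        nlinarith [sq_nonneg δ, ht0pos, hδpos, mul_pos ht0pos hδpos, mul_pos (mul_pos ht0pos hδpos) hδpos]
      have e2 : 1 / τ ≤ 1 / t - δ / t0 ^ 2 := by
        have : δ / t0 ^ 2 ≤ ε / (t * τ) := by
          rw [div_le_div_iff₀ (by positivity) (by positivity), hδ]
          have hε1 : ε < 1 := by linarith
          have h5 : t * τ ≤ t0 * (t0 + 1) := by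
            rw [hτ]
            have : t + ε ≤ t0 + 1 := by linarith
            exact mul_le_mul htt0 this (by linarith) (by linarith)
          calc ε * t0 / (t0 + 1) * (t * τ) ≤ ε * t0 / (t0 + 1) * (t0 * (t0 + 1)) :=
                mul_le_mul_of_nonneg_left h5 (by positivity)
            _ = ε * t0 ^ 2 := by field_simp
        have e3 : 1 / τ = 1 / t - ε / (t * τ) := by
          rw [hτ]; field_simp; ring
        rw [e3]; linarith
      have : 1 / t0 = 1 / t - a * (g - 1) := by linarith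
      linarith
    have h2 := mul_le_mul_of_nonneg_right h1 hτpos.le
    rw [one_div_mul_cancel hτpos.ne'] at h2
    calc (1 : ℝ) ≤ (1 / τ0 + a * (g - 1)) * τ := h2
      _ = τ / τ0 + (a * (g - 1) : ℝ) * τ := by ring
  refine ⟨K0 ^ (τ / τ0), Real.rpow_pos_of_pos hK0 _, ?_⟩
  intro x y d hx hy hd heq
  have hlow := d_lower g a b hg x y d hx hy heq
  have hne := d_ne g a b x y d hd heq
  set d' : ℤ := y ^ a - x ^ b with hd'
  have hA1 := one_le_abs_int _ hne
  have hy' : (1 : ℝ) ≤ y := by exact_mod_cast hy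
  have hK := HK x y d' hx hy hne (by rw [hd']; ring)
  have hNcast : ((a * (g - 1) : ℕ) : ℝ) = a * (g - 1) := by
    push_cast [Nat.cast_sub hg]; ring
  set A : ℝ := |(d' : ℝ)| with hA
  have hAnn : 0 ≤ A := by linarith
  calc (y : ℝ) = (y : ℝ) ^ (1 : ℝ) := (Real.rpow_one _).symm
    _ ≤ (y : ℝ) ^ (τ / τ0 + (a * (g - 1) : ℝ) * τ) := Real.rpow_le_rpow_of_exponent_le hy' hkey
    _ = (y : ℝ) ^ (τ / τ0) * ((y : ℝ) ^ (a * (g - 1))) ^ τ := by
        rw [Real.rpow_add (by linarith), Real.rpow_mul (by linarith), ← hNcast,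
          Real.rpow_natCast]
    _ < (K0 * A ^ τ0) ^ (τ / τ0) * ((y : ℝ) ^ (a * (g - 1))) ^ τ := by
        refine mul_lt_mul_of_pos_right ?_ (by positivity)
        exact Real.rpow_lt_rpow (by linarith) hK (by positivity)
    _ = K0 ^ (τ / τ0) * (A * (y : ℝ) ^ (a * (g - 1))) ^ τ := by
        rw [Real.mul_rpow hK0.le (by positivity), ← Real.rpow_mul hAnn,
          mul_div_cancel₀ _ hτ0pos.ne', Real.mul_rpow hAnn (by positivity)]
        ring
    _ ≤ K0 ^ (τ / τ0) * |(d : ℝ)| ^ τ := by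
        refine mul_le_mul_of_nonneg_left ?_ (by positivity)
        exact Real.rpow_le_rpow (by positivity) hlow (by positivity)

/-- unconditional: one exponent divides the other -/
theorem hall_of_dvd (m n : ℕ) (hm : 0 < m) (hn : 0 < n) (h : (1 : ℝ) / m + 1 / n < 1)
    (hd : m ∣ n ∨ n ∣ m) : HallProp m n := by
  rcases hd with ⟨b, rfl⟩ | ⟨a, rfl⟩
  · have hb : 1 ≤ b := Nat.pos_of_ne_zero (by rintro rfl; simp at hn)
    have := hall_of_le m 1 b hm (le_refl 1) hb (by omega) (by simpa using h)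
    simpa using this
  · have ha : 1 ≤ a := Nat.pos_of_ne_zero (by rintro rfl; simp at hm)
    have := hall_of_le n a 1 hn ha (le_refl 1) (by omega) (by simpa using h)
    simpa using this

theorem reduction :
    (∀ m n : ℕ, 0 < m → 0 < n → (1 : ℝ) / m + 1 / n < 1 → HallProp m n) ↔
      (∀ m n : ℕ, 2 ≤ m → 2 ≤ n → Nat.Coprime m n → HallProp m n) := by
  constructor
  · intro H m n hm hn hc
    apply H m n (by omega) (by omega)
    have hne : ¬ (m = 2 ∧ n = 2) := by
      rintro ⟨rfl, rfl⟩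
      simp at hc
    have hm' : (2 : ℝ) ≤ m := by exact_mod_cast hm
    have hn' : (2 : ℝ) ≤ n := by exact_mod_cast hn
    rw [div_add_div _ _ (by linarith) (by linarith), div_lt_one (by positivity)]
    rcases Nat.lt_or_ge 2 m with h3 | h3
    · have : (3 : ℝ) ≤ m := by exact_mod_cast h3
      nlinarith
    · have h4 : 3 ≤ n := by omega
      have : (3 : ℝ) ≤ n := by exact_mod_cast h4
      nlinarith
  · intro H m n hm hn h
    obtain ⟨g, hg, hgm, hgn⟩ : ∃ g, 0 < g ∧ g ∣ m ∧ g ∣ n ∧ g = Nat.gcd m n := by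
      exact ⟨Nat.gcd m n, Nat.gcd_pos_of_pos_left n hm, Nat.gcd_dvd_left m n,
        Nat.gcd_dvd_right m n, rfl⟩
    obtain ⟨hgn, hgeq⟩ := hgn
    obtain ⟨a, rfl⟩ := hgm
    obtain ⟨b, rfl⟩ := hgn
    have ha : 1 ≤ a := Nat.pos_of_ne_zero (by rintro rfl; simp at hm)
    have hb : 1 ≤ b := Nat.pos_of_ne_zero (by rintro rfl; simp at hn)
    have hcop : Nat.Coprime a b := by
      rw [Nat.gcd_mul_left] at hgeq
      have : Nat.gcd a b = 1 := by
        have := Nat.eq_of_mul_eq_mul_left hg (by rw [mul_one]; exact hgeq.symm : g * Nat.gcd a b = g * 1)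
        exact this
      exact this
    by_cases hab : a * b ≤ a + b
    · exact hall_of_le g a b hg ha hb hab h
    · have ha2 : 2 ≤ a := by
        by_contra hc
        have : a = 1 := by omega
        subst this
        omega
      have hb2 : 2 ≤ b := by
        by_contra hc
        have : b = 1 := by omega
        subst this
        omega
      refine hall_mul g a b hg ha hb ?_ (H a b ha2 hb2 hcop)
      have ha' : (2 : ℝ) ≤ a := by exact_mod_cast ha2
      have hb' : (2 : ℝ) ≤ b := by exact_mod_cast hb2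
      have hab' : (a : ℝ) + b < a * b := by
        have : a + b < a * b := by omega
        exact_mod_cast this
      rw [div_add_div _ _ (by linarith) (by linarith), div_lt_one (by positivity)]
      linarith

end Pool.Agent.Helper4
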