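import Mathlib

set_option autoImplicit false

namespace Pool.Agent.Helper4

/-- The statement `(H_{m,n})`. -/
def HallProp (m n : ℕ) : Prop :=
  ∀ ε : ℝ, 0 < ε → ε < 1 / 6 → ∃ K : ℝ, 0 < K ∧
    ∀ x y d : ℤ, 0 < x → 0 < y → d ≠ 0 → y ^ m = x ^ n + d →
      (y : ℝ) < K * |(d : ℝ)| ^ ((n : ℝ) / ((m : ℝ) * n - m - n) + ε)

end Pool.Agent.Helper4
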